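import Mathlib
import Pool.Agent.Helper73.LuzinIdeal
import Pool.Agent.Helper73.LuzinReal

/-!
Problem MP_6ff61e_lc, Q1: for singular `κ` a `κ`-Luzin set may exist while no subgroup of `ℝⁿ` is a
`κ`-Luzin set. Both ideals (meager and null), every `n ≥ 1`.
-/

set_option autoImplicit false

namespace Pool.Agent.Results.MP_6ff61e_lc.LuzinGroupsSingular

open Cardinal Set Pool.Agent.Helper73.Luzin

/-- Let `n ≥ 1`.

(1) (No extra axiom.) Let `κ ≤ 𝔠` be a singular cardinal and let `I` be the ideal of meager (null)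
subsets of `ℝⁿ`. If `add(I) ≥ cf(κ) ≥ cof(I)`, then there is a `κ`-Luzin set for `I`; and if some
subgroup of `ℝⁿ` is a `κ`-Luzin set for `I`, then there are strong measure zero (strongly meager)
sets of reals of size at least `lam` for every `lam < κ`.

(2) Let `κ = ℵ_{ω₁} ≤ 𝔠`. If `cof(I) = ℵ₁` and every strong measure zero (strongly meager) set of
reals has size at most `ℵ₁`, then there is a `κ`-Luzin set for `I` but no subgroup of `ℝⁿ` is a
`κ`-Luzin set for `I`. -/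
theorem result (n : ℕ) (hn : 1 ≤ n) :
    (∀ κ : Cardinal.{0}, κ.IsSingular → κ ≤ 𝔠 →
      (AddGe (IsMeagre : Set (Fin n → ℝ) → Prop) κ.ord.cof →
        CofLe (IsMeagre : Set (Fin n → ℝ) → Prop) κ.ord.cof →
        (∃ A : Set (Fin n → ℝ), IsLuzin IsMeagre κ A) ∧
        ((∃ G : AddSubgroup (Fin n → ℝ), IsLuzin IsMeagre κ (G : Set (Fin n → ℝ))) →
          ∀ lam < κ, ∃ X : Set ℝ, StrongMeasureZero X ∧ lam ≤ #X)) ∧
      (AddGe (IsNull n) κ.ord.cof → CofLe (IsNull n) κ.ord.cof →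
        (∃ A : Set (Fin n → ℝ), IsLuzin (IsNull n) κ A) ∧
        ((∃ G : AddSubgroup (Fin n → ℝ), IsLuzin (IsNull n) κ (G : Set (Fin n → ℝ))) →
          ∀ lam < κ, ∃ X : Set ℝ, StronglyMeager X ∧ lam ≤ #X))) ∧
    ((ℵ_ (Ordinal.omega 1) : Cardinal.{0}) ≤ 𝔠 →
      (CofLe (IsMeagre : Set (Fin n → ℝ) → Prop) (ℵ_ 1) →
        (∀ X : Set ℝ, StrongMeasureZero X → #X ≤ ℵ_ 1) →
        (∃ A : Set (Fin n → ℝ), IsLuzin IsMeagre (ℵ_ (Ordinal.omega 1)) A) ∧
        ¬ ∃ G : AddSubgroup (Fin n → ℝ),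
          IsLuzin IsMeagre (ℵ_ (Ordinal.omega 1)) (G : Set (Fin n → ℝ))) ∧
      (CofLe (IsNull n) (ℵ_ 1) →
        (∀ X : Set ℝ, StronglyMeager X → #X ≤ ℵ_ 1) →
        (∃ A : Set (Fin n → ℝ), IsLuzin (IsNull n) (ℵ_ (Ordinal.omega 1)) A) ∧
        ¬ ∃ G : AddSubgroup (Fin n → ℝ),
          IsLuzin (IsNull n) (ℵ_ (Ordinal.omega 1)) (G : Set (Fin n → ℝ)))) := by
  have main : ∀ κ : Cardinal.{0}, κ.IsSingular → κ ≤ 𝔠 →
      (AddGe (IsMeagre : Set (Fin n → ℝ) → Prop) κ.ord.cof →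
        CofLe (IsMeagre : Set (Fin n → ℝ) → Prop) κ.ord.cof →
        (∃ A : Set (Fin n → ℝ), IsLuzin IsMeagre κ A) ∧
        ((∃ G : AddSubgroup (Fin n → ℝ), IsLuzin IsMeagre κ (G : Set (Fin n → ℝ))) →
          ∀ lam < κ, ∃ X : Set ℝ, StrongMeasureZero X ∧ lam ≤ #X)) ∧
      (AddGe (IsNull n) κ.ord.cof → CofLe (IsNull n) κ.ord.cof →
        (∃ A : Set (Fin n → ℝ), IsLuzin (IsNull n) κ A) ∧
        ((∃ G : AddSubgroup (Fin n → ℝ), IsLuzin (IsNull n) κ (G : Set (Fin n → ℝ))) →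
          ∀ lam < κ, ∃ X : Set ℝ, StronglyMeager X ∧ lam ≤ #X)) := by
    intro κ hκ hκc
    refine ⟨fun hadd hcof => ⟨exists_luzin_meagre hn hκ hκc hadd hcof, ?_⟩,
      fun hadd hcof => ⟨exists_luzin_null hn hκ hκc hadd hcof, ?_⟩⟩
    · rintro ⟨G, hG⟩ lam hlam
      exact exists_large hκ hG.1 StrongMeasureZero
        (fun X hX hXκ i => luzin_group_meagre hκ.1 G hG X hX hXκ i) hlam
    · rintro ⟨G, hG⟩ lam hlam
      exact exists_large hκ hG.1 StronglyMeager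
        (fun X hX hXκ i => luzin_group_null hκ.1 G hG X hX hXκ i) hlam
  refine ⟨main, fun hc => ⟨fun hcof hsmall => ?_, fun hcof hsmall => ?_⟩⟩
  · have h2 : ℵ_ 2 < ℵ_ (Ordinal.omega 1) := by
      rw [aleph_lt_aleph]
      exact (Ordinal.natCast_lt_omega0 2).trans Ordinal.omega0_lt_omega_one
    obtain ⟨h, h'⟩ := (main _ isSingular_aleph_omega_one hc).1
      (by rw [cof_aleph_omega_one]; exact addGe_meagre n) (by rw [cof_aleph_omega_one]; exact hcof)
    refine ⟨h, fun hG => ?_⟩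
    obtain ⟨X, hX, hX2⟩ := h' hG _ h2
    have h3 := hX2.trans (hsmall X hX)
    rw [aleph_le_aleph] at h3
    exact absurd h3 (by norm_num)
  · have h2 : ℵ_ 2 < ℵ_ (Ordinal.omega 1) := by
      rw [aleph_lt_aleph]
      exact (Ordinal.natCast_lt_omega0 2).trans Ordinal.omega0_lt_omega_one
    obtain ⟨h, h'⟩ := (main _ isSingular_aleph_omega_one hc).2
      (by rw [cof_aleph_omega_one]; exact addGe_null n) (by rw [cof_aleph_omega_one]; exact hcof)
    refine ⟨h, fun hG => ?_⟩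
    obtain ⟨X, hX, hX2⟩ := h' hG _ h2
    have h3 := hX2.trans (hsmall X hX)
    rw [aleph_le_aleph] at h3
    exact absurd h3 (by norm_num)

end Pool.Agent.Results.MP_6ff61e_lc.LuzinGroupsSingular
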