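import Pool.Agent.Helper20.Luzin.Main

set_option autoImplicit false

open Cardinal

namespace Pool.Agent.Results.MP_6ff61e_lc.LuzinSubspace

/-- In ZFC: if a Luzin set (an `ℵ₁`-Luzin set for the meagre ideal) exists in some `ℝᵐ`, then for every `n ≥ 1`
some `ℚ`-linear subspace of `ℝⁿ` is a Luzin set. In particular (`m = n`; a Luzin set cannot exist in `ℝ⁰`) the
implication asked for in Q1 holds for `κ = ℵ₁` and the ideal of meagre sets, in all dimensions. -/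
theorem result :
    (∀ m : ℕ, (∃ X : Set (Fin m → ℝ), ℵ₁ ≤ #X ∧
        ∀ A : Set (Fin m → ℝ), IsMeagre A → #(X ∩ A : Set (Fin m → ℝ)) < ℵ₁) →
      ∀ n : ℕ, 0 < n → ∃ G : Submodule ℚ (Fin n → ℝ), ℵ₁ ≤ #(G : Set (Fin n → ℝ)) ∧
        ∀ A : Set (Fin n → ℝ), IsMeagre A → #((G : Set (Fin n → ℝ)) ∩ A : Set (Fin n → ℝ)) < ℵ₁) ∧
    (∀ n : ℕ, (∃ X : Set (Fin n → ℝ), ℵ₁ ≤ #X ∧
        ∀ A : Set (Fin n → ℝ), IsMeagre A → #(X ∩ A : Set (Fin n → ℝ)) < ℵ₁) →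
      ∃ G : Submodule ℚ (Fin n → ℝ), ℵ₁ ≤ #(G : Set (Fin n → ℝ)) ∧
        ∀ A : Set (Fin n → ℝ), IsMeagre A →
          #((G : Set (Fin n → ℝ)) ∩ A : Set (Fin n → ℝ)) < ℵ₁) := by
  have hm0 : ∀ m : ℕ, (∃ X : Set (Fin m → ℝ), ℵ₁ ≤ #X ∧
      ∀ A : Set (Fin m → ℝ), IsMeagre A → #(X ∩ A : Set (Fin m → ℝ)) < ℵ₁) → m ≠ 0 := by
    rintro m ⟨X, hX, -⟩ rfl
    have h1 : (X : Set (Fin 0 → ℝ)).Countable := Set.to_countable X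
    rw [← le_aleph0_iff_set_countable] at h1
    exact absurd (hX.trans h1) (not_le.2 aleph0_lt_aleph_one)
  have main : ∀ m : ℕ, (∃ X : Set (Fin m → ℝ), ℵ₁ ≤ #X ∧
        ∀ A : Set (Fin m → ℝ), IsMeagre A → #(X ∩ A : Set (Fin m → ℝ)) < ℵ₁) →
      ∀ n : ℕ, 0 < n → ∃ G : Submodule ℚ (Fin n → ℝ), ℵ₁ ≤ #(G : Set (Fin n → ℝ)) ∧
        ∀ A : Set (Fin n → ℝ), IsMeagre A →
          #((G : Set (Fin n → ℝ)) ∩ A : Set (Fin n → ℝ)) < ℵ₁ := by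
    intro m h n hn
    obtain ⟨m', rfl⟩ := Nat.exists_eq_succ_of_ne_zero (hm0 m h)
    obtain ⟨n', rfl⟩ := Nat.exists_eq_succ_of_ne_zero hn.ne'
    obtain ⟨X, hX, hX'⟩ := h
    exact Helper20.Luzin.main m' n' hX hX'
  exact ⟨main, fun n h => main n h n (Nat.pos_of_ne_zero (hm0 n h))⟩

end Pool.Agent.Results.MP_6ff61e_lc.LuzinSubspace
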