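import Mathlib
import Pool.Agent.Helper73.LuzinReal
import Pool.Agent.Helper73.LuzinRegular

/-!
Problem MP_6ff61e_lc, Q1: a positive answer for regular `κ` with `cof(I) < 𝔟(κ)`.
-/

set_option autoImplicit false

namespace Pool.Agent.Results.MP_6ff61e_lc.LuzinSubspaceRegular

open Cardinal Set Pool.Agent.Helper73.Luzin

/-- Let `κ` be a regular uncountable cardinal, let `I` be the ideal of meager (null) subsets of
`ℝⁿ` and suppose that `cof(I) < 𝔟(κ)`, the least size of an unbounded family of functions from `κ`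
to `κ` modulo eventual domination. If there is a `κ`-Luzin set for `I` then there is a
`ℚ`-linear subspace of `ℝⁿ` which is a `κ`-Luzin set for `I`. -/
theorem result (n : ℕ) (κ : Cardinal.{0}) (hκ : κ.IsRegular) (hκ0 : ℵ₀ < κ) :
    (∀ μ : Cardinal.{0}, CofLe (IsMeagre : Set (Fin n → ℝ) → Prop) μ → LtBounding μ κ →
      (∃ A : Set (Fin n → ℝ), IsLuzin IsMeagre κ A) →
        ∃ V : Submodule ℚ (Fin n → ℝ), IsLuzin IsMeagre κ (V : Set (Fin n → ℝ))) ∧
    (∀ μ : Cardinal.{0}, CofLe (IsNull n) μ → LtBounding μ κ →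
      (∃ A : Set (Fin n → ℝ), IsLuzin (IsNull n) κ A) →
        ∃ V : Submodule ℚ (Fin n → ℝ), IsLuzin (IsNull n) κ (V : Set (Fin n → ℝ))) := by
  constructor
  · rintro μ ⟨F, hF, hFI, hcof⟩ hμ ⟨A, hA, hAB⟩
    exact exists_luzin_subspace IsMeagre (affine_meagre n) hκ hκ0 A hA hAB hμ F hF hFI hcof
  · rintro μ ⟨F, hF, hFI, hcof⟩ hμ ⟨A, hA, hAB⟩
    exact exists_luzin_subspace (IsNull n) (affine_null n) hκ hκ0 A hA hAB hμ F hF hFI hcof

end Pool.Agent.Results.MP_6ff61e_lc.LuzinSubspaceRegular
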