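import Pool.Agent.Helper75.SX.MainThm2
import Pool.Agent.Helper75.SX.Sane2

/-!
# A forcing extension with κ-Luzin sets but without κ-Luzin subgroups

The definitions are in `Pool.Agent.Helper75.SX.Defs` (and `LM.Flt`, `LM.Gen`, `LM.Frc` in
`Pool.Agent.Helper18.LM.Gen`; `SX.KPres` in `Pool.Agent.Helper75.SX.KDef`).

`result` says: there are sets `J` whose cardinality `κ` is larger than the successor of the continuum and
has cofinality `ω₁`, and for every such `J` the countable support product `SX.Cond J` of Sacks forcings along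
`J` preserves `κ` (as a cardinal), and it forces for every `d ≥ 1` and for both ideals that there is a
`κ`-Luzin set in `ℝ^d`, but that no subgroup of `ℝ^d` is a `κ`-Luzin set.  No hypothesis beyond ZFC is used.

`Pool.Agent.Helper75.SX.Sane2` proves that for the trivial forcing the notions of `Defs` are the usual
ones; in particular the codes are codes of null sets and meager sets (`SX.null_iff`, `SX.meager_iff`).
-/

set_option autoImplicit false

open Cardinal

namespace Pool.Agent.Results.MP_6ff61e_lc.SacksLuzinGroups

theorem result :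
    (∃ J : Type, Order.succ 𝔠 < #J ∧ (#J).ord.cof = ℵ_ 1) ∧
      ∀ J : Type, Order.succ 𝔠 < #J → (#J).ord.cof = ℵ_ 1 →
        SX.KPres (SX.Cond J) J ∧ ∀ d : ℕ, 1 ≤ d → ∀ I : SX.Idl,
          (∃ A : SX.SetName (SX.Cond J) d, ∀ p, SX.FLuz J I A p) ∧
            ∀ (A : SX.SetName (SX.Cond J) d) (p : SX.Cond J), SX.FSubgroup A p → ¬ SX.FLuz J I A p :=
  ⟨SX.exists_J, SX.main2⟩

end Pool.Agent.Results.MP_6ff61e_lc.SacksLuzinGroups
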